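import Mathlib
import Pool.Agent.W275.UB.Stm
import Pool.Agent.H294DM.Main2

/-!
A system without critical periodic points.
-/

set_option autoImplicit false

namespace Pool.Agent.W407.UB

open MvPolynomial Pool.Agent.H936R2 Pool.Agent.H927R2.RD H294UB H294DM Pool.Agent.W275.UB

lemma eval_smul_hom {R : Type} [CommRing R] {n d : ℕ} {P : MvPolynomial (Fin n) R}
    (hP : P.IsHomogeneous d) (c : R) (x : Fin n → R) :
    eval (c • x) P = c ^ d * eval x P := by
  rw [eval_eq, eval_eq, Finset.mul_sum]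
  apply Finset.sum_congr rfl
  intro κ hκ
  have hdeg : κ.degree = d := by
    have := hP (mem_support_iff.1 hκ)
    rw [Finsupp.degree_eq_weight_one]; exact this
  have h3 : ∏ j ∈ κ.support, ((c • x) j) ^ κ j =
      c ^ d * ∏ j ∈ κ.support, (x j) ^ κ j := by
    rw [Finset.prod_congr rfl fun j _ => by rw [Pi.smul_apply, smul_eq_mul, mul_pow],
      Finset.prod_mul_distrib, Finset.prod_pow_eq_pow_sum]
    congr 2
  rw [h3]
  ring

lemma pt_smul {R : Type} [CommRing R] {n d : ℕ} {P : Fin n → MvPolynomial (Fin n) R}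
    (hP : ∀ i, (P i).IsHomogeneous d) (c : R) (x : Fin n → R) :
    pt P (c • x) = c ^ d • pt P x := by
  funext i
  simp only [pt, Pi.smul_apply, smul_eq_mul]
  exact eval_smul_hom (hP i) c x

lemma pt_iter_smul {R : Type} [CommRing R] {n d : ℕ} {P : Fin n → MvPolynomial (Fin n) R}
    (hP : ∀ i, (P i).IsHomogeneous d) (c : R) (x : Fin n → R) (k : ℕ) :
    (pt P)^[k] (c • x) = c ^ d ^ k • (pt P)^[k] x := by
  induction k with
  | zero => simp
  | succ k ih =>
    rw [Function.iterate_succ_apply', ih, pt_smul hP, Function.iterate_succ_apply', ← pow_mul,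
      ← pow_succ]

lemma jac_smul {R : Type} [CommRing R] {n d : ℕ} {P : Fin n → MvPolynomial (Fin n) R}
    (hP : ∀ i, (P i).IsHomogeneous d) (c : R) (x : Fin n → R) :
    jac P (c • x) = c ^ (d - 1) • jac P x := by
  ext i j
  simp only [jac, Matrix.smul_apply, smul_eq_mul]
  exact eval_smul_hom (hP i).pderiv c x

theorem main : S_model := by
  intro N d hd
  obtain ⟨p, hp, _, hdp, ζ, hζ⟩ := exists_root d hd 1
  let k := AlgebraicClosure (ZMod p)
  let φ : ZMod p →+* k := algebraMap (ZMod p) k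
  have : CharP k p := charP_of_injective_algebraMap φ.injective p
  have hζk : IsPrimitiveRoot (φ ζ) d := hζ.map_of_injective φ.injective
  have hζ1 : φ ζ ≠ 1 := by
    intro h
    have := hζk.pow_ne_one_of_pos_of_lt one_ne_zero (by omega : 1 < d)
    rw [pow_one] at this
    exact this h
  have hdk : (d : k) ≠ 0 := by
    intro h
    rw [CharP.cast_eq_zero_iff k p] at h
    have := Nat.le_of_dvd (by omega) h
    omega
  have hGh : ∀ i, (GG N d (φ ζ) i).IsHomogeneous d := taskHom.1 k N d (φ ζ)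
  refine ⟨k, inferInstance, inferInstance, fun q => coeff (expo q.2) (GG N d (φ ζ) q.1), ?_⟩
  have hsy : sy (fun q : Idx (N + 1) d => coeff (expo q.2) (GG N d (φ ζ) q.1)) =
      GG N d (φ ζ) := by
    funext i
    exact form_coeff (hGh i)
  rw [hsy]
  intro e x l he hx hper
  have hzero : ∀ y : Fin (N + 1) → k, pt (GG N d (φ ζ)) y = 0 → y = 0 := fun y hy =>
    taskZero taskMob k N d (φ ζ) (by omega) hζ1 hζk y fun j => congrFun hy j
  have hit : ∀ (m : ℕ) (y : Fin (N + 1) → k), y ≠ 0 → (pt (GG N d (φ ζ)))^[m] y ≠ 0 := by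
    intro m
    induction m with
    | zero => intro y hy; exact hy
    | succ m ih =>
      intro y hy h
      rw [Function.iterate_succ_apply'] at h
      exact ih y hy (hzero _ h)
  have hl : l ≠ 0 := by
    rintro rfl
    rw [zero_smul] at hper
    exact hit e x hx hper
  have hde : 2 ≤ d ^ e := by
    calc 2 ≤ d := hd
      _ = d ^ 1 := (pow_one d).symm
      _ ≤ d ^ e := Nat.pow_le_pow_right (by omega) he
  obtain ⟨t, ht⟩ := IsAlgClosed.exists_pow_nat_eq (k := k) l⁻¹ (n := d ^ e - 1) (by omega)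
  have ht0 : t ≠ 0 := by
    rintro rfl
    rw [zero_pow (by omega)] at ht
    exact inv_ne_zero hl ht.symm
  have htt : t ^ d ^ e * l = t := by
    have h1 : t ^ d ^ e = t ^ (d ^ e - 1) * t := by
      rw [← pow_succ]
      congr 1
      omega
    rw [h1, ht, mul_comm l⁻¹ t, mul_assoc, inv_mul_cancel₀ hl, mul_one]
  have hfix : (pt (GG N d (φ ζ)))^[e] (t • x) = t • x := by
    rw [pt_iter_smul hGh, hper, smul_smul, htt]
  have htx : t • x ≠ 0 := smul_ne_zero ht0 hx
  have hdet : (jac (GG N d (φ ζ)) (t • x)).det ≠ 0 := by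
    rw [jac_GG, Matrix.det_mul]
    apply mul_ne_zero
    · exact taskMob.2 k N _ (sub_ne_zero.2 (Ne.symm hζ1))
    · exact taskJac k N d (φ ζ) (by omega) hdk hζk (t • x)
        (taskPer taskMob taskPow k N d (φ ζ) hd hζk (t • x) htx e he hfix)
  intro h0
  apply hdet
  rw [jac_smul hGh, Matrix.det_smul, h0, mul_zero]

end Pool.Agent.W407.UB
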